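import Mathlib
import Pool.Agent.LibAdmissible.Exact

open Cardinal

namespace Pool.Agent.Results.MP_637f5b_co.ExactChromatic

/-- **Exactness theorem.** Let `G` be a graph and `κ` an infinite cardinal such that `G` cannot be
properly coloured with fewer than `κ` colours. Then there is a graph `H` whose chromatic number is
exactly `κ` such that every finite subgraph of `H` is a subgraph of `G`. -/
theorem result (V : Type) (G : SimpleGraph V) (κ : Cardinal.{0}) (hκ : Cardinal.aleph0 ≤ κ)
    (hG : ∀ β : Type, Cardinal.mk β < κ → IsEmpty (G.Coloring β)) :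
    ∃ (W : Type) (H : SimpleGraph W),
      (∃ α : Type, Cardinal.mk α = κ ∧ Nonempty (H.Coloring α)) ∧
      (∀ β : Type, Cardinal.mk β < κ → IsEmpty (H.Coloring β)) ∧
      ∀ (n : ℕ) (F : SimpleGraph (Fin n)) (f : F →g H), Function.Injective f →
        ∃ g : F →g G, Function.Injective g := by
  classical
  obtain ⟨W, H, h1, h2, h3⟩ := Pool.Agent.LibAdmissible.exact_graph G κ hκ hG
  refine ⟨W, H, h1, h2, ?_⟩
  intro n F f hf
  obtain ⟨e, he1, he2⟩ := h3 (Finset.univ.image f)
  refine ⟨⟨fun x => e (f x), ?_⟩, ?_⟩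
  · intro x y hxy
    exact he2 _ (Finset.mem_image_of_mem _ (Finset.mem_univ _)) _
      (Finset.mem_image_of_mem _ (Finset.mem_univ _)) (f.map_adj hxy)
  · intro x y hxy
    apply hf
    refine he1 ?_ ?_ hxy
    · simp
    · simp

end Pool.Agent.Results.MP_637f5b_co.ExactChromatic
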