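import Mathlib
import Pool.Agent.LibAdmissible.Exact

open Cardinal

namespace Pool.Agent.Results.MP_637f5b_co.HomClosed

/-- Every finite subgraph of `G` belongs to the class `A`. -/
def FinSubIn (A : (n : ℕ) → SimpleGraph (Fin n) → Prop) {V : Type} (G : SimpleGraph V) : Prop :=
  ∀ (n : ℕ) (F : SimpleGraph (Fin n)) (f : F →g G), Function.Injective f → A n F

/-- The class `A` of finite graphs is admissible: for every infinite cardinal `κ` there is a graph
of chromatic number exactly `κ` all of whose finite subgraphs belong to `A`. -/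
def Admissible (A : (n : ℕ) → SimpleGraph (Fin n) → Prop) : Prop :=
  ∀ κ : Cardinal.{0}, Cardinal.aleph0 ≤ κ →
    ∃ (V : Type) (G : SimpleGraph V),
      (∃ α : Type, Cardinal.mk α = κ ∧ Nonempty (G.Coloring α)) ∧
      (∀ β : Type, Cardinal.mk β < κ → IsEmpty (G.Coloring β)) ∧ FinSubIn A G

/-- The finite graph `F` has a homomorphism to some member of the class `A`. -/
def HomTo (A : (n : ℕ) → SimpleGraph (Fin n) → Prop) {n : ℕ} (F : SimpleGraph (Fin n)) : Prop :=
  ∃ (m : ℕ) (F' : SimpleGraph (Fin m)), A m F' ∧ Nonempty (F →g F')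

/-- categorical product -/
def catProd {V W : Type} (G : SimpleGraph V) (H : SimpleGraph W) : SimpleGraph (V × W) where
  Adj p q := G.Adj p.1 q.1 ∧ H.Adj p.2 q.2
  symm := ⟨fun _ _ h => ⟨h.1.symm, h.2.symm⟩⟩
  loopless := ⟨fun _ h => G.loopless.irrefl _ h.1⟩

lemma catProd_not_colorable {V W : Type} (G : SimpleGraph V) (H : SimpleGraph W) (Θ : Type)
    (hG : IsEmpty (G.Coloring Θ)) (hH : IsEmpty (H.Coloring (V → Θ))) :
    IsEmpty ((catProd G H).Coloring Θ) := by
  constructor
  intro c
  have h1 : ∃ w w', H.Adj w w' ∧ (fun v => c (v, w)) = (fun v => c (v, w')) := by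
    by_contra hcon
    push Not at hcon
    exact hH.false (SimpleGraph.Coloring.mk (fun w v => c (v, w)) (fun {w w'} h => hcon w w' h))
  obtain ⟨w, w', hww, hf⟩ := h1
  apply hG.false
  refine SimpleGraph.Coloring.mk (fun v => c (v, w)) ?_
  intro v v' hvv h
  have h2 : c (v', w) = c (v', w') := congrFun hf v'
  have h3 : (catProd G H).Adj (v, w) (v', w') := ⟨hvv, hww⟩
  exact c.valid h3 (h.trans h2)

lemma homTo_of_hom {A : (n : ℕ) → SimpleGraph (Fin n) → Prop} {V : Type}
    {G : SimpleGraph V} (hG : FinSubIn A G) {n : ℕ} (F : SimpleGraph (Fin n)) (f : F →g G) :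
    HomTo A F := by
  classical
  let S : Finset V := Finset.univ.image f
  let e : Fin S.card ≃ S := S.equivFin.symm
  let F' : SimpleGraph (Fin S.card) := G.comap (fun i => (e i).1)
  have h1 : A S.card F' := by
    apply hG S.card F' ⟨fun i => (e i).1, fun {a b} h => h⟩
    intro i j h
    exact e.injective (Subtype.ext h)
  refine ⟨S.card, F', h1, ⟨⟨fun x => e.symm ⟨f x, Finset.mem_image_of_mem _
    (Finset.mem_univ _)⟩, ?_⟩⟩⟩
  intro x y hxy
  change G.Adj (e (e.symm _)).1 (e (e.symm _)).1
  rw [Equiv.apply_symm_apply, Equiv.apply_symm_apply]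
  exact f.map_adj hxy

/-- For any two admissible classes `A₁`, `A₂` of finite graphs, the class of all finite graphs which
have a homomorphism to a member of `A₁` and a homomorphism to a member of `A₂` is admissible. In
particular, if `A₁` and `A₂` are closed under homomorphic preimages, their intersection is
admissible. -/
theorem result (A₁ A₂ : (n : ℕ) → SimpleGraph (Fin n) → Prop)
    (hA₁ : Admissible A₁) (hA₂ : Admissible A₂) :
    Admissible (fun _ F => HomTo A₁ F ∧ HomTo A₂ F) := by
  classical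
  intro κ hκ
  obtain ⟨V, G, _, hG, hGA⟩ := hA₁ (Order.succ κ) (hκ.trans (Order.le_succ κ))
  have hG' : IsEmpty (G.Coloring κ.out) := hG κ.out (by
    rw [mk_out]; exact Order.lt_succ κ)
  obtain ⟨W, H, _, hH, hHA⟩ := hA₂ (max κ (Order.succ #(V → κ.out))) (hκ.trans (le_max_left _ _))
  have hH' : IsEmpty (H.Coloring (V → κ.out)) :=
    hH _ (lt_of_lt_of_le (Order.lt_succ _) (le_max_right _ _))
  have hP := catProd_not_colorable G H κ.out hG' hH'
  have hP' : ∀ β : Type, #β < κ → IsEmpty ((catProd G H).Coloring β) := by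
    intro β hβ
    constructor
    intro c
    rw [← mk_out κ] at hβ
    obtain ⟨f⟩ := (Cardinal.le_def _ _).1 hβ.le
    exact hP.false (SimpleGraph.Coloring.mk (fun x => f (c x))
      (fun {x y} hxy h => c.valid hxy (f.injective h)))
  obtain ⟨U, K, h1, h2, h3⟩ := Pool.Agent.LibAdmissible.exact_graph (catProd G H) κ hκ hP'
  refine ⟨U, K, h1, h2, ?_⟩
  intro n F f hf
  obtain ⟨e, _, he2⟩ := h3 (Finset.univ.image f)
  let g : F →g catProd G H := ⟨fun x => e (f x), by
    intro x y hxy
    exact he2 _ (Finset.mem_image_of_mem _ (Finset.mem_univ _)) _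
      (Finset.mem_image_of_mem _ (Finset.mem_univ _)) (f.map_adj hxy)⟩
  refine ⟨?_, ?_⟩
  · exact homTo_of_hom hGA F ⟨fun x => (g x).1, fun {x y} hxy => (g.map_adj hxy).1⟩
  · exact homTo_of_hom hHA F ⟨fun x => (g x).2, fun {x y} hxy => (g.map_adj hxy).2⟩

end Pool.Agent.Results.MP_637f5b_co.HomClosed
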