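import Mathlib
import Pool.Agent.LibAdmissible.Exact

open Cardinal

namespace Pool.Agent.Results.MP_637f5b_co.TriangleFree

/-- Every finite subgraph of `G` belongs to the class `A`. -/
def FinSubIn (A : (n : ℕ) → SimpleGraph (Fin n) → Prop) {V : Type} (G : SimpleGraph V) : Prop :=
  ∀ (n : ℕ) (F : SimpleGraph (Fin n)) (f : F →g G), Function.Injective f → A n F

/-- The class `A` of finite graphs is admissible: for every infinite cardinal `κ` there is a graph
of chromatic number exactly `κ` all of whose finite subgraphs belong to `A`. -/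
def Admissible (A : (n : ℕ) → SimpleGraph (Fin n) → Prop) : Prop :=
  ∀ κ : Cardinal.{0}, Cardinal.aleph0 ≤ κ →
    ∃ (V : Type) (G : SimpleGraph V),
      (∃ α : Type, Cardinal.mk α = κ ∧ Nonempty (G.Coloring α)) ∧
      (∀ β : Type, Cardinal.mk β < κ → IsEmpty (G.Coloring β)) ∧ FinSubIn A G

/-! ### Shift graphs: triangle-free graphs of large chromatic number -/

/-- shift graph on pairs -/
def shiftGraph (L : Type) [LinearOrder L] : SimpleGraph {p : L × L // p.1 < p.2} where
  Adj p q := p.1.2 = q.1.1 ∨ q.1.2 = p.1.1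
  symm := ⟨fun _ _ h => h.symm⟩
  loopless := ⟨fun p h => by
    rcases h with h | h <;> exact absurd h (ne_of_gt p.2)⟩

lemma shiftGraph_not_colorable (L Θ : Type) [LinearOrder L] (h : #(Set Θ) < #L) :
    IsEmpty ((shiftGraph L).Coloring Θ) := by
  constructor
  intro c
  let S : L → Set Θ := fun y => {i | ∃ (x : L) (hx : x < y), c ⟨(x, y), hx⟩ = i}
  have hinj : Function.Injective S := by
    have key : ∀ x y : L, x < y → S x ≠ S y := by
      intro x y hxy heq
      have h1 : c ⟨(x, y), hxy⟩ ∈ S y := ⟨x, hxy, rfl⟩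
      rw [← heq] at h1
      obtain ⟨w, hw, hc⟩ := h1
      exact c.valid (show (shiftGraph L).Adj ⟨(w, x), hw⟩ ⟨(x, y), hxy⟩ from Or.inl rfl) hc
    intro x y hxy
    rcases lt_trichotomy x y with h1 | h1 | h1
    · exact absurd hxy (key x y h1)
    · exact h1
    · exact absurd hxy.symm (key y x h1)
  exact absurd (mk_le_of_injective hinj) (not_le.2 h)

lemma shiftGraph_triangleFree (L : Type) [LinearOrder L] : (shiftGraph L).CliqueFree 3 := by
  intro s hs
  rw [SimpleGraph.is3Clique_iff] at hs
  obtain ⟨⟨⟨a1, a2⟩, ha⟩, ⟨⟨b1, b2⟩, hb⟩, ⟨⟨c1, c2⟩, hc⟩, hab, hac, hbc, _⟩ := hs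
  change a1 < a2 at ha
  change b1 < b2 at hb
  change c1 < c2 at hc
  change a2 = b1 ∨ b2 = a1 at hab
  change a2 = c1 ∨ c2 = a1 at hac
  change b2 = c1 ∨ c2 = b1 at hbc
  rcases hab with h1 | h1 <;> rcases hac with h2 | h2 <;> rcases hbc with h3 | h3
  · exact absurd (h1.symm.trans h2) (by rintro rfl; exact absurd h3 (ne_of_gt hb))
  · exact absurd (h1.symm.trans h2) (by rintro rfl; exact absurd h3 (ne_of_gt hc))
  · exact absurd (ha.trans_eq h1 |>.trans hb |>.trans_eq h3 |>.trans hc |>.trans_eq h2)
      (lt_irrefl _)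
  · exact absurd ((h2.symm.trans h3) ▸ h1 ▸ ha) (lt_irrefl _)
  · exact absurd ((h1.symm.trans h3) ▸ h2 ▸ ha) (lt_irrefl _)
  · exact absurd (ha.trans_eq h2 |>.trans hc |>.trans_eq h3 |>.trans hb |>.trans_eq h1)
      (lt_irrefl _)
  · exact absurd (hc.trans_eq (h2.trans (h1.symm.trans h3))) (lt_irrefl _)
  · exact absurd (hb.trans_eq (h1.trans (h2.symm.trans h3))) (lt_irrefl _)

/-! ### Triangle-free subgraphs of large chromatic number -/

/-- Every `K_n`-free graph of sufficiently large chromatic number has a triangle-free subgraph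
which is not `κ`-colourable. -/
lemma exists_triangleFree (n : ℕ) : ∀ κ : Cardinal.{0}, ∃ μ : Cardinal.{0},
    ∀ (V : Type) (G : SimpleGraph V), G.CliqueFree n → IsEmpty (G.Coloring μ.out) →
      ∃ G' : SimpleGraph V, G' ≤ G ∧ G'.CliqueFree 3 ∧ IsEmpty (G'.Coloring κ.out) := by
  classical
  induction n with
  | zero =>
    intro κ
    refine ⟨κ, fun V G hG _ => ?_⟩
    exact absurd hG (by simp)
  | succ n ih =>
    intro κ
    obtain ⟨ν, hν⟩ := ih κ
    refine ⟨#(ν.out × ν.out → κ.out), fun V G hG hGc => ?_⟩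
    have hGc' : IsEmpty (G.Coloring (ν.out × ν.out → κ.out)) := by
      constructor
      intro c
      obtain ⟨f⟩ := Cardinal.eq.1 (mk_out #(ν.out × ν.out → κ.out))
      exact hGc.false (SimpleGraph.Coloring.mk (fun x => f.symm (c x))
        (fun {x y} hxy h => c.valid hxy (f.symm.injective h)))
    by_cases hloc : ∃ v, IsEmpty ((G.induce (G.neighborSet v)).Coloring ν.out)
    · -- a neighbourhood of large chromatic number
      obtain ⟨v, hv⟩ := hloc
      have hcf : (G.induce (G.neighborSet v)).CliqueFree n := by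
        intro s hs
        let t : Finset V := insert v (s.map (Function.Embedding.subtype _))
        apply hG t
        have hmap : G.IsNClique n (s.map (Function.Embedding.subtype _)) := by
          refine ⟨?_, ?_⟩
          · intro a ha b hb hab
            rw [Finset.mem_coe, Finset.mem_map] at ha hb
            obtain ⟨a', ha', rfl⟩ := ha
            obtain ⟨b', hb', rfl⟩ := hb
            exact hs.1 ha' hb' (fun h => hab (by rw [h]))
          · rw [Finset.card_map]
            exact hs.2
        apply hmap.insert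
        intro b hb
        rw [Finset.mem_map] at hb
        obtain ⟨b', _, rfl⟩ := hb
        exact b'.2
      obtain ⟨G'', hle, htf, hnc⟩ := hν _ _ hcf hv
      refine ⟨G''.map (Function.Embedding.subtype _), ?_, ?_, ?_⟩
      · rintro a b ⟨_, a', b', hab, rfl, rfl⟩
        exact hle hab
      · intro s hs
        rw [SimpleGraph.is3Clique_iff] at hs
        obtain ⟨a, b, c, ⟨_, a', b', hab, rfl, rfl⟩, ⟨_, a'', c', hac, h1, rfl⟩,
          ⟨_, b'', c'', hbc, h2, h3⟩, _⟩ := hs
        have e1 : a'' = a' := Subtype.ext h1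
        have e2 : b'' = b' := Subtype.ext h2
        have e3 : c'' = c' := Subtype.ext h3
        subst e1 e2 e3
        exact htf {a'', b'', c''} (SimpleGraph.is3Clique_triple_iff.2 ⟨hab, hac, hbc⟩)
      · constructor
        intro c
        exact hnc.false (SimpleGraph.Coloring.mk (fun x => c x.1)
          (fun {x y} hxy => c.valid ⟨fun h => hxy.ne (Subtype.ext h), x, y, hxy, rfl, rfl⟩))
    · -- all neighbourhoods have small chromatic number
      push Not at hloc
      obtain ⟨_, _, _⟩ := Cardinal.exists_ord_eq_type_lt V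
      let c : (v : V) → (G.induce (G.neighborSet v)).Coloring ν.out := fun v => (hloc v).some
      let E : ν.out × ν.out → SimpleGraph V := fun p =>
        { Adj := fun u v => (∃ (h : G.Adj u v), u < v ∧ c v ⟨u, h.symm⟩ = p.1 ∧ c u ⟨v, h⟩ = p.2) ∨
            (∃ (h : G.Adj v u), v < u ∧ c u ⟨v, h.symm⟩ = p.1 ∧ c v ⟨u, h⟩ = p.2)
          symm := ⟨fun _ _ h => h.symm⟩
          loopless := ⟨fun v h => by
            rcases h with ⟨h, _⟩ | ⟨h, _⟩ <;> exact G.loopless.irrefl _ h⟩ }
      have hE : ∃ p, IsEmpty ((E p).Coloring κ.out) := by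
        by_contra hcon
        push Not at hcon
        let d : (p : ν.out × ν.out) → (E p).Coloring κ.out := fun p => (hcon p).some
        apply hGc'.false
        refine SimpleGraph.Coloring.mk (fun v p => d p v) ?_
        intro u v huv h
        rcases lt_trichotomy u v with hlt | heq | hgt
        · let p : ν.out × ν.out := (c v ⟨u, huv.symm⟩, c u ⟨v, huv⟩)
          have h1 : (E p).Adj u v := Or.inl ⟨huv, hlt, rfl, rfl⟩
          exact (d p).valid h1 (congrFun h p)
        · exact huv.ne heq
        · let p : ν.out × ν.out := (c u ⟨v, huv⟩, c v ⟨u, huv.symm⟩)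
          have h1 : (E p).Adj u v := Or.inr ⟨huv.symm, hgt, rfl, rfl⟩
          exact (d p).valid h1 (congrFun h p)
      obtain ⟨p, hp⟩ := hE
      have hEle : E p ≤ G := by
        intro a b hab
        rcases hab with ⟨h, _⟩ | ⟨h, _⟩
        · exact h
        · exact h.symm
      refine ⟨E p, hEle, ?_, hp⟩
      -- no triangles
      have key : ∀ x y z : V, (E p).Adj x y → (E p).Adj x z → (E p).Adj y z → x < z → y < z →
          False := by
        intro x y z hxy hxz hyz h1 h2
        have a1 : c z ⟨x, (hEle hxz).symm⟩ = p.1 := by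
          rcases hxz with ⟨h, _, h', _⟩ | ⟨h, h3, _⟩
          · exact h'
          · exact absurd h1 (not_lt.2 h3.le)
        have a2 : c z ⟨y, (hEle hyz).symm⟩ = p.1 := by
          rcases hyz with ⟨h, _, h', _⟩ | ⟨h, h3, _⟩
          · exact h'
          · exact absurd h2 (not_lt.2 h3.le)
        have a3 : (G.induce (G.neighborSet z)).Adj ⟨x, (hEle hxz).symm⟩ ⟨y, (hEle hyz).symm⟩ :=
          hEle hxy
        exact (c z).valid a3 (a1.trans a2.symm)
      intro s hs
      rw [SimpleGraph.is3Clique_iff] at hs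
      obtain ⟨x, y, z, hxy, hxz, hyz, _⟩ := hs
      have nxy := hxy.ne
      have nxz := hxz.ne
      have nyz := hyz.ne
      rcases lt_or_gt_of_ne nxz with h1 | h1
      · rcases lt_or_gt_of_ne nyz with h2 | h2
        · exact key x y z hxy hxz hyz h1 h2
        · exact key x z y hxz hxy hyz.symm (h1.trans h2) h2
      · rcases lt_or_gt_of_ne nxy with h2 | h2
        · exact key x z y hxz hxy hyz.symm h2 (h1.trans h2)
        · exact key y z x hyz hxy.symm hxz.symm h2 h1

/-- For every admissible class `A` of finite graphs, the class of triangle-free members of `A` is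
admissible. -/
theorem result (A : (n : ℕ) → SimpleGraph (Fin n) → Prop) (hA : Admissible A) :
    Admissible (fun n F => A n F ∧ F.CliqueFree 3) := by
  classical
  intro κ hκ
  -- it is enough to find a triangle-free graph without `κ`-colourings, finite subgraphs in `A`
  have main : ∃ (V : Type) (G : SimpleGraph V), FinSubIn A G ∧ G.CliqueFree 3 ∧
      IsEmpty (G.Coloring κ.out) := by
    choose μ hμ using fun n => exists_triangleFree n κ
    let M : Type := Σ n, (μ n).out
    obtain ⟨V, G, _, hG, hGA⟩ := hA (max κ (Order.succ #M)) (hκ.trans (le_max_left _ _))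
    have hGM : IsEmpty (G.Coloring M) := hG _ (lt_of_lt_of_le (Order.lt_succ _) (le_max_right _ _))
    by_cases hfree : ∃ n, G.CliqueFree n
    · obtain ⟨n, hn⟩ := hfree
      have h1 : IsEmpty (G.Coloring (μ n).out) := by
        constructor
        intro c
        exact hGM.false (SimpleGraph.Coloring.mk (fun x => (⟨n, c x⟩ : M))
          (fun {x y} hxy h => c.valid hxy (eq_of_heq (Sigma.mk.inj h).2)))
      obtain ⟨G', hle, h3, hnc⟩ := hμ n V G hn h1
      refine ⟨V, G', ?_, h3, hnc⟩
      intro m F f hf
      exact hGA m F ⟨f, fun {a b} h => hle (f.map_adj h)⟩ hf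
    · push Not at hfree
      -- every finite graph is a subgraph of `G`
      have hall : ∀ (m : ℕ) (F : SimpleGraph (Fin m)), A m F := by
        intro m F
        have h1 := hfree m
        rw [SimpleGraph.not_cliqueFree_iff_top_isContained] at h1
        obtain ⟨e⟩ := h1
        exact hGA m F ⟨fun x => e x, fun {a b} h => e.toHom.map_adj
          (show (⊤ : SimpleGraph (Fin m)).Adj a b from h.ne)⟩ (fun a b h => e.injective h)
      let L : Type := (Order.succ #(Set κ.out)).out
      obtain ⟨_, _, _⟩ := Cardinal.exists_ord_eq_type_lt L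
      refine ⟨_, shiftGraph L, fun m F f _ => hall m F, shiftGraph_triangleFree L, ?_⟩
      apply shiftGraph_not_colorable
      rw [mk_out]
      exact Order.lt_succ _
  obtain ⟨V, G, hGA, h3, hnc⟩ := main
  have hnc' : ∀ β : Type, #β < κ → IsEmpty (G.Coloring β) := by
    intro β hβ
    constructor
    intro c
    rw [← mk_out κ] at hβ
    obtain ⟨f⟩ := (Cardinal.le_def _ _).1 hβ.le
    exact hnc.false (SimpleGraph.Coloring.mk (fun x => f (c x))
      (fun {x y} hxy h => c.valid hxy (f.injective h)))
  obtain ⟨U, K, h1, h2, h4⟩ := Pool.Agent.LibAdmissible.exact_graph G κ hκ hnc'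
  refine ⟨U, K, h1, h2, ?_⟩
  intro n F f hf
  obtain ⟨e, he1, he2⟩ := h4 (Finset.univ.image f)
  let g : F →g G := ⟨fun x => e (f x), by
    intro x y hxy
    exact he2 _ (Finset.mem_image_of_mem _ (Finset.mem_univ _)) _
      (Finset.mem_image_of_mem _ (Finset.mem_univ _)) (f.map_adj hxy)⟩
  have hg : Function.Injective g := by
    intro x y hxy
    apply hf
    refine he1 ?_ ?_ hxy
    · simp
    · simp
  refine ⟨hGA n F g hg, ?_⟩
  intro s hs
  rw [SimpleGraph.is3Clique_iff] at hs
  obtain ⟨a, b, c, hab, hac, hbc, _⟩ := hs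
  exact h3 {g a, g b, g c}
    (SimpleGraph.is3Clique_triple_iff.2 ⟨g.map_adj hab, g.map_adj hac, g.map_adj hbc⟩)

end Pool.Agent.Results.MP_637f5b_co.TriangleFree
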